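import Pool.Agent.Lib.MP_88d29b_nt.HFinal

set_option autoImplicit false

noncomputable section

namespace Pool.Agent.Results.MP_88d29b_nt.AllLevels

open Filter Topology CongruenceSubgroup UpperHalfPlane Pool.Agent.Lib.MP_88d29b_nt
open scoped ModularForm Manifold

/-- The classical formula
`(T_p f)(z) = p ^ (k - 1) f(p z) + (1 / p) ∑_{0 ≤ j < p} f((z + j) / p)`. -/
def heckeFun (p : ℕ) (k : ℤ) (f : ℍ → ℂ) (z : ℍ) : ℂ :=
  (p : ℂ) ^ (k - 1) * f (ofComplex (p * z)) +
    (∑ j ∈ Finset.range p, f (ofComplex (((z : ℂ) + j) / p))) / p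

variable (p N : ℕ) [Fact p.Prime] [NeZero N] (hN : Nat.Coprime p N)

include hN in
theorem heckeFun_slash (k : ℤ) (f : CuspForm (Gamma0 N) k) :
    ∀ γ ∈ (Gamma0 N : Subgroup (GL (Fin 2) ℝ)), heckeFun p k f ∣[k] γ = heckeFun p k f :=
  (G.hecke N k Fact.out hN f).slash_action_eq'

include hN in
theorem heckeFun_holo (k : ℤ) (f : CuspForm (Gamma0 N) k) :
    MDifferentiable 𝓘(ℂ) 𝓘(ℂ) (heckeFun p k f) :=
  (G.hecke N k Fact.out hN f).holo'

include hN in
theorem heckeFun_zero (k : ℤ) (f : CuspForm (Gamma0 N) k) {c : OnePoint ℝ}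
    (hc : IsCusp c (Gamma0 N)) : c.IsZeroAt (heckeFun p k f) k :=
  (G.hecke N k Fact.out hN f).zero_at_cusps' hc

/-- The cusp form `T_p f`. -/
def heckeForm (k : ℤ) (f : CuspForm (Gamma0 N) k) : CuspForm (Gamma0 N) k where
  toFun := heckeFun p k f
  slash_action_eq' := heckeFun_slash p N hN k f
  holo' := heckeFun_holo p N hN k f
  zero_at_cusps' := heckeFun_zero p N hN k f

theorem heckeForm_add (k : ℤ) (f g : CuspForm (Gamma0 N) k) :
    heckeForm p N hN k (f + g) = heckeForm p N hN k f + heckeForm p N hN k g :=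
  (G.hecke N k Fact.out hN).map_add f g

theorem heckeForm_smul (k : ℤ) (c : ℂ) (f : CuspForm (Gamma0 N) k) :
    heckeForm p N hN k (c • f) = c • heckeForm p N hN k f :=
  (G.hecke N k Fact.out hN).map_smul c f

/-- The Hecke operator `T_p` on the space of cusp forms of weight `k` for `Γ_0(N)`. -/
def hecke (k : ℤ) : CuspForm (Gamma0 N) k →ₗ[ℂ] CuspForm (Gamma0 N) k where
  toFun := heckeForm p N hN k
  map_add' := heckeForm_add p N hN k
  map_smul' := heckeForm_smul p N hN k

/-- The space of cusp forms is finite dimensional. -/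
theorem finite_cusp (k : ℕ) : Module.Finite ℂ (CuspForm (Gamma0 N) (k : ℤ)) := G.finite_cusp N k

/-- The eigenvalues of `T_p` on cusp forms of weight `k` for `Γ_0(N)`, with multiplicity: the roots
of the characteristic polynomial. -/
def eigenvalues (k : ℕ) : Multiset ℂ :=
  haveI := finite_cusp N k
  (hecke p N hN k).charpoly.roots

/-- The complex number `z` is algebraic, nonzero, and its normalised slope
`((p + 1) / k) * v_p(z)` lies in `[a, b]`, where `v_p = - log_p ‖ι ·‖` is the valuation with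
`v_p(p) = 1` attached to the embedding `ι` of the algebraic numbers into `\bar ℚ_p`. -/
def SlopeIn (ι : algebraicClosure ℚ ℂ →+* PadicAlgCl p) (k : ℕ) (a b : ℝ) (z : ℂ) : Prop :=
  ∃ x : algebraicClosure ℚ ℂ, (x : ℂ) = z ∧ x ≠ 0 ∧
    (((p : ℝ) + 1) / (k : ℝ)) * (-Real.logb p ‖ι x‖) ∈ Set.Icc a b

open Classical in
/-- The number of elements of `X_T` in `[a, b]`. -/
def countIn (ι : algebraicClosure ℚ ℂ →+* PadicAlgCl p) (a b : ℝ) (T : ℕ) : ℕ :=
  ∑ k ∈ Finset.Icc 2 T, ((eigenvalues p N hN k).filter (SlopeIn p ι k a b)).card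

/-- The number of elements of `X_T`. -/
def countAll (T : ℕ) : ℕ := ∑ k ∈ Finset.Icc 2 T, (eigenvalues p N hN k).card

/-- Gouvea's distribution conjecture: for every prime `p` and every level `N ≥ 1` prime to `p`, the
normalised slopes `((p + 1) / k) v_p(a_p)` of the eigenvalues of `T_p` on `S_k(Γ_0(N))`,
`2 ≤ k ≤ T`, are equidistributed on `[0, 1]` as `T → ∞`. -/
theorem result (p N : ℕ) [Fact p.Prime] [NeZero N] (hN : Nat.Coprime p N)
    (ι : algebraicClosure ℚ ℂ →+* PadicAlgCl p) (a b : ℝ) (ha : 0 ≤ a) (hab : a ≤ b) (hb : b ≤ 1) :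
    Tendsto (fun T : ℕ => (countIn p N hN ι a b T : ℝ) / (countAll p N hN T : ℝ)) atTop
      (𝓝 (b - a)) :=
  G.equidistribution N hN ι ha hab hb

end Pool.Agent.Results.MP_88d29b_nt.AllLevels
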